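import Mathlib
import Pool.Agent.N485.MGCore

set_option autoImplicit false

/-!
MP_35204b_gt, Q1 and Q2, both answered positively.
-/

namespace Pool.Agent.Results.MP_35204b_gt.ClosedSubgroups

/-- `G` with its topology `τ` is minimal: every Hausdorff group topology `σ` on `G` coarser than
`τ` (in Mathlib's order `τ ≤ σ`) is equal to `τ`. -/
def IsMinimalGroup (G : Type) [Group G] [τ : TopologicalSpace G] : Prop :=
  ∀ σ : TopologicalSpace G, τ ≤ σ → @IsTopologicalGroup G σ _ → @T2Space G σ → σ = τ

/-- `G` is totally minimal: all quotients by closed normal subgroups are minimal. -/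
def IsTotallyMinimalGroup (G : Type) [Group G] [TopologicalSpace G] : Prop :=
  ∀ (N : Subgroup G) [N.Normal], IsClosed (N : Set G) → IsMinimalGroup (G ⧸ N)

/-- Let `A` be a Hausdorff abelian group and `K` a compact Hausdorff group. If `A` is minimal then
every closed subgroup of `A × K` is minimal, and if `A` is totally minimal then every closed
subgroup of `A × K` is totally minimal. -/
theorem result (A : Type) [CommGroup A] [TopologicalSpace A] [IsTopologicalGroup A] [T2Space A]
    (K : Type) [Group K] [TopologicalSpace K] [IsTopologicalGroup K] [T2Space K]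
    [CompactSpace K] :
    (IsMinimalGroup A →
      ∀ H : Subgroup (A × K), IsClosed (H : Set (A × K)) → IsMinimalGroup H) ∧
    (IsTotallyMinimalGroup A →
      ∀ H : Subgroup (A × K), IsClosed (H : Set (A × K)) → IsTotallyMinimalGroup H) := by
  constructor
  · intro hA H hH
    obtain ⟨B, _, _, _, _, _, i, hi, hd⟩ := Pool.Agent.N485.MG.exists_compact A hA
    exact Pool.Agent.N485.MG.main1 i hi hd hA H hH
  · intro hA H hH
    have hA' : Pool.Agent.N485.MG.TotMinGrp A := hA
    obtain ⟨B, _, _, _, _, _, i, hi, hd⟩ := Pool.Agent.N485.MG.exists_compact A hA'.min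
    exact Pool.Agent.N485.MG.main2 i hi hd hA' H hH

end Pool.Agent.Results.MP_35204b_gt.ClosedSubgroups
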